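import Pool.Agent.Helper46.DZ2.St

/-! # Project DZ2 (MP_b3ce06_al), module RED: Grün's lemma and Schur's theorem -/

set_option autoImplicit false

namespace Pool.Agent.Helper60.DZ2

open Pool.Agent.Helper46.DZ2
open scoped commutatorElement

section

variable {L : Type} [CommRing L] {G : Type} [Group G] (S : Sys L G)

lemma Red_E0 : S.E 0 = 1 := by
  have h := S.add 0 0
  rw [add_zero] at h
  exact (mul_eq_left.1 h.symm)

lemma Red_inv (h2 : ∀ a : L, a + a = 0) (a : L) : (S.E a)⁻¹ = S.E a := by
  rw [inv_eq_iff_mul_eq_one, ← S.add, h2, Red_E0]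

lemma Red_winv : S.w⁻¹ = S.w := by
  rw [inv_eq_iff_mul_eq_one, S.ww]

lemma Red_w : S.w = S.E 1 * S.F 1 * S.E 1 := S.br.symm

/-- the group is perfect -/
lemma Red_perfect {n M l : ℕ} {x : Lˣ} (hR : Rg L n M l x) (hG : S.Gen) {g : G}
    (hg : S.IsTor x g) : commutator G = ⊤ := by
  have h1 : IsUnit (1 + (x : L)) := by
    have := hR.unit 1 (by
      intro h
      have := Nat.le_of_dvd one_pos h
      have := hR.M1
      omega)
    simpa using this
  obtain ⟨u, hu⟩ := h1
  have hsq : (1 + (x : L)) ^ 2 = (x : L) ^ 2 + 1 := by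
    have := hR.two (x : L)
    linear_combination this
  have hE : ∀ b, S.E b ∈ commutator G := by
    intro b
    set a : L := ((u ^ 2)⁻¹ : Lˣ) * b with ha
    have hab : (x : L) ^ 2 * a + a = b := by
      have h3 : (x : L) ^ 2 * a + a = ((u ^ 2 : Lˣ) : L) * a := by
        push_cast
        rw [hu, hsq]
        ring
      rw [h3, ha, ← mul_assoc, Units.mul_inv, one_mul]
    have h4 : ⁅g, S.E a⁆ = S.E b := by
      rw [commutatorElement_def, hg.1, Red_inv S hR.two, ← S.add, hab]
    rw [← h4]
    exact Subgroup.commutator_mem_commutator (Subgroup.mem_top g) (Subgroup.mem_top _)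
  have hF : ∀ b, S.F b ∈ commutator G := by
    intro b
    have : (commutator G).Normal := inferInstance
    have h5 := this.conj_mem (S.E b) (hE b) S.w
    rw [Red_winv] at h5
    exact h5
  have hw : S.w ∈ commutator G := by
    rw [Red_w]
    exact mul_mem (mul_mem (hE 1) (hF 1)) (hE 1)
  rw [eq_top_iff, ← hG, Subgroup.closure_le]
  rintro y (⟨b, rfl⟩ | hy)
  · exact hE b
  · rw [Set.mem_singleton_iff] at hy
    rw [hy]
    exact hw

/-- Grün's lemma -/
lemma Red_grun (hP : commutator G = ⊤) (g : G)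
    (hg : ∀ h : G, ⁅g, h⁆ ∈ Subgroup.center G) : g ∈ Subgroup.center G := by
  let φ : G →* Subgroup.center G :=
    { toFun := fun h => ⟨⁅g, h⁆, hg h⟩
      map_one' := by
        apply Subtype.ext
        simp
      map_mul' := by
        intro a b
        apply Subtype.ext
        simp only [Subgroup.coe_mul]
        have hb := Subgroup.mem_center_iff.1 (hg b)
        have h1 : ⁅g, a * b⁆ = g * a * g⁻¹ * ⁅g, b⁆ * a⁻¹ := by
          simp only [commutatorElement_def]
          group
        rw [h1, mul_assoc, ← hb a⁻¹, ← mul_assoc]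
        simp only [commutatorElement_def] }
  have h1 : commutator G ≤ φ.ker := by
    rw [commutator_def, Subgroup.commutator_le]
    intro a _ b _
    rw [MonoidHom.mem_ker, map_commutatorElement, commutatorElement_eq_one_iff_mul_comm]
    apply Subtype.ext
    exact Subgroup.mem_center_iff.1 (φ b).2 (φ a)
  rw [hP] at h1
  rw [Subgroup.mem_center_iff]
  intro h
  have h2 : φ h = 1 := h1 (Subgroup.mem_top h)
  have h3 : ⁅g, h⁆ = 1 := congrArg Subtype.val h2
  rw [commutatorElement_eq_one_iff_mul_comm] at h3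
  exact h3.symm

/-- Schur's theorem -/
lemma Red_schur [hf : Finite (G ⧸ Subgroup.center G)] (hP : commutator G = ⊤) : Finite G := by
  have h1 : (commutatorSet G).Finite := by
    apply Set.Finite.subset (Set.finite_range
      (fun p : (G ⧸ Subgroup.center G) × (G ⧸ Subgroup.center G) => ⁅p.1.out, p.2.out⁆))
    rintro _ ⟨a, b, rfl⟩
    refine ⟨((a : G ⧸ Subgroup.center G), (b : G ⧸ Subgroup.center G)), ?_⟩
    have ha : ∃ z ∈ Subgroup.center G, (a : G ⧸ Subgroup.center G).out = a * z := by
      obtain ⟨z, hz⟩ := QuotientGroup.mk_out_eq_mul (Subgroup.center G) a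
      exact ⟨z, z.2, hz⟩
    have hb : ∃ z ∈ Subgroup.center G, (b : G ⧸ Subgroup.center G).out = b * z := by
      obtain ⟨z, hz⟩ := QuotientGroup.mk_out_eq_mul (Subgroup.center G) b
      exact ⟨z, z.2, hz⟩
    obtain ⟨z, hz, ha⟩ := ha
    obtain ⟨y, hy, hb⟩ := hb
    simp only [ha, hb, commutatorElement_def]
    rw [Subgroup.mem_center_iff] at hz hy
    have e1 : a * z * (b * y) * (a * z)⁻¹ * (b * y)⁻¹
        = a * (z * (b * y * z⁻¹)) * a⁻¹ * (y⁻¹ * b⁻¹) := by group
    have e2 : z * (b * y * z⁻¹) = b * y := by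
      rw [← mul_assoc, ← hz]
      group
    have e3 : a * (b * y) * a⁻¹ * (y⁻¹ * b⁻¹) = a * b * (y * (a⁻¹ * y⁻¹)) * b⁻¹ := by group
    have e4 : y * (a⁻¹ * y⁻¹) = a⁻¹ := by
      rw [← mul_assoc, ← hy]
      group
    rw [e1, e2, e3, e4]
  have h2 : Finite (commutatorSet G) := h1.to_subtype
  have h3 : Finite (commutator G) := inferInstance
  rw [hP] at h3
  exact Finite.of_equiv _ Subgroup.topEquiv.toEquiv

/-- the image of the system modulo the centre -/
def Red_S : Sys L (G ⧸ Subgroup.center G) where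
  E := fun a => (S.E a : G ⧸ Subgroup.center G)
  w := (S.w : G ⧸ Subgroup.center G)
  add := by
    intro a b
    rw [S.add]
    rfl
  ww := by
    rw [← QuotientGroup.mk_mul, S.ww]
    rfl
  br := by
    rw [← QuotientGroup.mk_mul, ← QuotientGroup.mk_mul, ← QuotientGroup.mk_mul,
      ← QuotientGroup.mk_mul, S.br]

lemma Red_SF (a : L) : (Red_S S).F a = (S.F a : G ⧸ Subgroup.center G) := rfl

end

/-- Module RED. -/
theorem hRed : StRed := by
  intro hFinC L _ G _ S n M l x hR hG hT
  obtain ⟨g, hg⟩ := hT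
  have hP : commutator G = ⊤ := Red_perfect S hR hG hg
  have hGen : (Red_S S).Gen := by
    have h1 : Subgroup.map (QuotientGroup.mk' (Subgroup.center G))
        (Subgroup.closure (Set.range S.E ∪ {S.w})) = ⊤ := by
      rw [hG, ← MonoidHom.range_eq_map, MonoidHom.range_eq_top]
      exact QuotientGroup.mk'_surjective _
    rw [MonoidHom.map_closure, Set.image_union, Set.image_singleton, ← Set.range_comp] at h1
    exact h1
  have hTor : (Red_S S).IsTor x (g : G ⧸ Subgroup.center G) := by
    refine ⟨fun a => ?_, fun a => ?_⟩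
    · change (g : G ⧸ Subgroup.center G) * (S.E a : G ⧸ Subgroup.center G) * (g : G ⧸ Subgroup.center G)⁻¹
        = (S.E ((x : L) ^ 2 * a) : G ⧸ Subgroup.center G)
      rw [← hg.1 a]
      rfl
    · rw [Red_SF, Red_SF, ← hg.2 a]
      rfl
  have hCent : (Red_S S).Cent := by
    intro γ hE hF
    obtain ⟨c, rfl⟩ := QuotientGroup.mk_surjective γ
    rw [QuotientGroup.eq_one_iff]
    apply Red_grun hP
    have hcl : Subgroup.closure (Set.range S.E ∪ {S.w}) ≤
        (Subgroup.centralizer {(c : G ⧸ Subgroup.center G)}).comap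
          (QuotientGroup.mk' (Subgroup.center G)) := by
      have hE' : ∀ a, S.E a ∈ (Subgroup.centralizer {(c : G ⧸ Subgroup.center G)}).comap
          (QuotientGroup.mk' (Subgroup.center G)) := by
        intro a
        rw [Subgroup.mem_comap, Subgroup.mem_centralizer_singleton_iff]
        exact (hE a).symm
      have hF' : ∀ a, S.F a ∈ (Subgroup.centralizer {(c : G ⧸ Subgroup.center G)}).comap
          (QuotientGroup.mk' (Subgroup.center G)) := by
        intro a
        rw [Subgroup.mem_comap, Subgroup.mem_centralizer_singleton_iff]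
        exact (hF a).symm
      rw [Subgroup.closure_le]
      rintro y (⟨b, rfl⟩ | hy)
      · exact hE' b
      · rw [Set.mem_singleton_iff] at hy
        rw [hy, Red_w]
        exact mul_mem (mul_mem (hE' 1) (hF' 1)) (hE' 1)
    rw [hG] at hcl
    intro h
    have h1 := hcl (Subgroup.mem_top h)
    rw [Subgroup.mem_comap, Subgroup.mem_centralizer_singleton_iff] at h1
    rw [← QuotientGroup.eq_one_iff]
    have h2 : (h : G ⧸ Subgroup.center G) * (c : G ⧸ Subgroup.center G)
        = (c : G ⧸ Subgroup.center G) * (h : G ⧸ Subgroup.center G) := h1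
    change ⁅(c : G ⧸ Subgroup.center G), (h : G ⧸ Subgroup.center G)⁆ = 1
    rw [commutatorElement_eq_one_iff_mul_comm]
    exact h2.symm
  have hfin : Finite (G ⧸ Subgroup.center G) :=
    hFinC L (G ⧸ Subgroup.center G) (Red_S S) n M l x hR hCent hGen ⟨_, hTor⟩
  exact Red_schur hP

end Pool.Agent.Helper60.DZ2
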